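import Pool.Agent.RepPoly.Equi3

set_option autoImplicit false

open Matrix

namespace Pool.Agent.Results.MP_69dac2_co.EquivariantRigidity

open Pool.Agent.RepPoly

/-- Let `G` be a finite group of rational matrices. Every realization `q` of the face lattice of
`P(G)` on which the left translations of `G` act by affine maps is affinely equivalent
to `P(G)`. -/
theorem result : ∀ (d N : ℕ) (G : Subgroup (GL (Fin d) ℚ)), Finite G →
    ∀ q : toReal G → (Fin N → ℝ),
    (∀ S : Set (toReal G), IsFace (toReal G) S ↔ IsFaceOf q S) →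
    (∀ g : toReal G, ∃ F : (Fin N → ℝ) →ᵃ[ℝ] (Fin N → ℝ), ∀ x, F (q x) = q (g * x)) →
    (∃ F : Matrix (Fin d) (Fin d) ℝ →ᵃ[ℝ] (Fin N → ℝ),
      ∀ x : toReal G, F (x.1 : Matrix (Fin d) (Fin d) ℝ) = q x) ∧
    (∃ F : (Fin N → ℝ) →ᵃ[ℝ] Matrix (Fin d) (Fin d) ℝ,
      ∀ x : toReal G, F (q x) = (x.1 : Matrix (Fin d) (Fin d) ℝ)) := by
  intro d N G hG q hface hleft
  exact realization_unique G q hface hleft

end Pool.Agent.Results.MP_69dac2_co.EquivariantRigidity
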