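import Pool.Agent.RepPoly.Index2

set_option autoImplicit false

open Matrix

namespace Pool.Agent.Results.MP_69dac2_co.IndexOneModP

open Pool.Agent.RepPoly

/-- For two finite `p`-groups of rational matrices, the number of combinatorial isomorphisms
between the representation polytopes is `k` times the number of affine isomorphisms, where `k` is
congruent to `1` modulo `p`. -/
theorem result : ∀ (d e p : ℕ) (G : Subgroup (GL (Fin d) ℚ)) (H : Subgroup (GL (Fin e) ℚ)),
    p.Prime → Finite G → Finite H → IsPGroup p G → IsPGroup p H →
    ∃ k : ℕ, k ≡ 1 [MOD p] ∧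
      Nat.card {σ : toReal G ≃ toReal H // CombIso (toReal G) (toReal H) σ} =
        k * Nat.card {σ : toReal G ≃ toReal H // AffIso (toReal G) (toReal H) σ} := by
  intro d e p G H hp hG hH hpG hpH
  exact count_iso hp G H hpG hpH

end Pool.Agent.Results.MP_69dac2_co.IndexOneModP
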