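import Pool.Agent.RepPoly.Perm

set_option autoImplicit false

namespace Pool.Agent.Results.MP_69dac2_co.PermutationGroups

open Pool.Agent.RepPoly

/-- Every combinatorial isomorphism between two permutation polytopes is affine, when each of
the two permutation groups is 2-transitive or balanced. -/
theorem result : ∀ (n m : ℕ) (G : Subgroup (Equiv.Perm (Fin n)))
    (H : Subgroup (Equiv.Perm (Fin m))),
    (TwoTransitive G ∨ Balanced G) → (TwoTransitive H ∨ Balanced H) →
    ∀ σ : permGroup G ≃ permGroup H,
      CombIso (permGroup G) (permGroup H) σ → AffIso (permGroup G) (permGroup H) σ := by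
  intro n m G H hG hH σ hσ
  have hfin : ∀ (k : ℕ) (K : Subgroup (Equiv.Perm (Fin k))), Finite (permGroup K) := by
    intro k K
    have h : Function.Surjective (fun s : K => (⟨(permMat k).toHomUnits s.1,
        Subgroup.mem_map_of_mem _ s.2⟩ : permGroup K)) := by
      rintro ⟨_, s, hs, rfl⟩
      exact ⟨⟨s, hs⟩, rfl⟩
    exact Finite.of_surjective _ h
  have := hfin n G
  have := hfin m H
  obtain ⟨a, ha⟩ := ext_of_balanced G (hG.elim (balanced_of_twoTransitive G) id)
  obtain ⟨b, hb⟩ := ext_of_balanced H (hH.elim (balanced_of_twoTransitive H) id)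
  exact affIso_of_combIso ha hb σ hσ

end Pool.Agent.Results.MP_69dac2_co.PermutationGroups
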