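import Pool.Agent.RepPoly.Inv
import Pool.Agent.RepPoly.Index

set_option autoImplicit false

open Matrix

namespace Pool.Agent.Results.MP_69dac2_co.RationalPGroups

open Pool.Agent.RepPoly

/-- The matrix `-I/(p-1)` lies in the representation polytope of `G`. For `p = 2` this is the
matrix `-I`. -/
def ReachesNeg {d : ℕ} (p : ℕ) (G : Subgroup (GL (Fin d) ℚ)) : Prop :=
  (-(1 / ((p : ℝ) - 1))) • (1 : Matrix (Fin d) (Fin d) ℝ) ∈
    convexHull ℝ (Set.range fun g : toReal G => (g.1 : Matrix (Fin d) (Fin d) ℝ))

/-- The condition on the group: irreducible over the rationals, or `-I/(p-1)` is in the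
representation polytope, or `p = 2` and there are no nonzero invariant tensors of degree `1`
and `3`. -/
def Admissible {d : ℕ} (p : ℕ) (G : Subgroup (GL (Fin d) ℚ)) : Prop :=
  IrreducibleQ G ∨ ReachesNeg p G ∨ (p = 2 ∧ NoInvVec G ∧ NoInvTensor G)

lemma ext_of_admissible {d p : ℕ} (hp : p.Prime) (G : Subgroup (GL (Fin d) ℚ)) [Finite G]
    (hG : IsPGroup p G) (h : Admissible p G) : ∃ m, Ext (coef (toReal G)) m := by
  rcases h with h | h | ⟨h2, h1, h3⟩
  · exact ext_of_pgroup hp G hG h
  · exact ext_of_rational_pgroup hp G hG h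
  · subst h2
    exact ext_of_rational_two' G hG h1 h3

/-- Every combinatorial isomorphism between the representation polytopes of two admissible finite
rational groups of prime power order is affine. -/
theorem result : ∀ (d e p q : ℕ) (G : Subgroup (GL (Fin d) ℚ)) (H : Subgroup (GL (Fin e) ℚ)),
    p.Prime → q.Prime → Finite G → Finite H → IsPGroup p G → IsPGroup q H →
    Admissible p G → Admissible q H →
    ∀ σ : toReal G ≃ toReal H,
      CombIso (toReal G) (toReal H) σ → AffIso (toReal G) (toReal H) σ := by
  intro d e p q G H hp hq hG hH hpG hqH hG' hH' σ hσ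
  have := finite_toReal G
  have := finite_toReal H
  obtain ⟨a, ha⟩ := ext_of_admissible hp G hpG hG'
  obtain ⟨b, hb⟩ := ext_of_admissible hq H hqH hH'
  exact affIso_of_combIso ha hb σ hσ

end Pool.Agent.Results.MP_69dac2_co.RationalPGroups
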